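import Mathlib

set_option autoImplicit false

namespace Pool.Agent.H.MP_6132b6_co

open Finset

def eZ (x : ZMod 2) : ℤ := if x = 0 then 1 else -1

lemma eZ_add : ∀ x y : ZMod 2, eZ (x + y) = eZ x * eZ y := by decide
lemma eZ_pm : ∀ x : ZMod 2, eZ x = 1 ∨ eZ x = -1 := by decide
lemma eZ_zero : eZ 0 = 1 := by decide
lemma eZ_one : eZ 1 = -1 := by decide

section chars
variable {ι : Type} [Fintype ι] [DecidableEq ι]

def chiZ (j a : ι → ZMod 2) : ℤ := eZ (j ⬝ᵥ a)

noncomputable def chi (j a : ι → ZMod 2) : ℝ := (chiZ j a : ℝ)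

omit [DecidableEq ι] in
lemma chi_add_right (j a b : ι → ZMod 2) : chi j (a + b) = chi j a * chi j b := by
  simp [chi, chiZ, dotProduct_add, eZ_add]

omit [DecidableEq ι] in
lemma chi_comm (j a : ι → ZMod 2) : chi j a = chi a j := by
  simp [chi, chiZ, dotProduct_comm]

omit [DecidableEq ι] in
lemma chi_add_left (j k a : ι → ZMod 2) : chi (j + k) a = chi j a * chi k a := by
  simp [chi, chiZ, add_dotProduct, eZ_add]

omit [DecidableEq ι] in
lemma chi_zero_left (a : ι → ZMod 2) : chi 0 a = 1 := by simp [chi, chiZ, eZ_zero]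

omit [DecidableEq ι] in
lemma chi_zero_right (a : ι → ZMod 2) : chi a 0 = 1 := by simp [chi, chiZ, eZ_zero]

omit [DecidableEq ι] in
lemma chi_pm (j a : ι → ZMod 2) : chi j a = 1 ∨ chi j a = -1 := by
  rcases eZ_pm (j ⬝ᵥ a) with h | h <;> simp [chi, chiZ, h]

omit [DecidableEq ι] [Fintype ι] in
lemma add_self_eq (a : ι → ZMod 2) : a + a = 0 := by
  funext i
  have : ∀ x : ZMod 2, x + x = 0 := by decide
  exact this _

lemma sum_chi (j : ι → ZMod 2) :
    ∑ a, chi j a = if j = 0 then (Fintype.card (ι → ZMod 2) : ℝ) else 0 := by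
  split_ifs with h
  · simp [h, chi_zero_left]
  · obtain ⟨i, hi⟩ := Function.ne_iff.1 h
    have h1 : j i = 1 := by
      have : ∀ x : ZMod 2, x ≠ 0 → x = 1 := by decide
      exact this _ hi
    have h2 : chi j (Pi.single i 1) = -1 := by
      simp [chi, chiZ, h1, eZ_one]
    have h3 := Equiv.sum_comp (Equiv.addRight (Pi.single i 1 : ι → ZMod 2)) (fun a => chi j a)
    simp only [Equiv.coe_addRight, chi_add_right, h2, mul_neg, mul_one, sum_neg_distrib] at h3
    linarith

/-- Fourier inversion -/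
lemma inversion (u : (ι → ZMod 2) → ℝ) (x : ι → ZMod 2) :
    ∑ j, (∑ a, chi j a * u a) * chi j x = (Fintype.card (ι → ZMod 2) : ℝ) * u x := by
  simp only [sum_mul]
  rw [sum_comm]
  have : ∀ a, ∑ j, chi j a * u a * chi j x =
      if a = x then (Fintype.card (ι → ZMod 2) : ℝ) * u x else 0 := by
    intro a
    have : ∀ j, chi j a * u a * chi j x = u a * chi (a + x) j := by
      intro j; rw [chi_add_left, chi_comm a, chi_comm x]; ring
    simp only [this, ← mul_sum, sum_chi]
    by_cases h : a = x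
    · simp [h, add_self_eq, mul_comm]
    · have : a + x ≠ 0 := by
        intro h'
        apply h
        have := congrArg (· + x) h'
        simpa [add_assoc, add_self_eq] using this
      simp [h, this]
  simp [this]

/-- the Fourier algebra norm of `f` is at most `C`, in dual form -/
def An (f : (ι → ZMod 2) → ℝ) (C : ℝ) : Prop :=
  ∀ (ψ : (ι → ZMod 2) → ℝ) (ε : ℝ), (∀ j, |∑ a, ψ a * chi j a| ≤ ε) → |∑ a, ψ a * f a| ≤ C * ε

lemma An.mul {f g : (ι → ZMod 2) → ℝ} {C D : ℝ} (hf : An f C) (hg : An g D) :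
    An (fun a => f a * g a) (D * C) := by
  intro ψ ε h
  have := hg (fun a => ψ a * f a) (C * ε) (fun j => by
    have := hf (fun a => ψ a * chi j a) ε (fun k => by
      have := h (j + k)
      simpa only [chi_add_left, mul_assoc] using this)
    simpa only [mul_assoc, mul_comm (chi j _)] using this)
  simpa only [mul_assoc] using this

lemma An.add {f g : (ι → ZMod 2) → ℝ} {C D : ℝ} (hf : An f C) (hg : An g D) :
    An (fun a => f a + g a) (C + D) := by
  intro ψ ε h
  simp only [mul_add, sum_add_distrib, add_mul]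
  exact (abs_add_le _ _).trans (add_le_add (hf ψ ε h) (hg ψ ε h))

lemma An.const (v C : ℝ) (hv : |v| ≤ C) : An (fun _ : ι → ZMod 2 => v) C := by
  intro ψ ε h
  have h0 := h 0
  simp only [chi_zero_left, mul_one] at h0
  rw [← sum_mul, abs_mul, mul_comm]
  exact mul_le_mul hv h0 (abs_nonneg _) ((abs_nonneg _).trans hv)

lemma An.sum {κ : Type} (s : Finset κ) {f : κ → (ι → ZMod 2) → ℝ} {C : ℝ}
    (hf : ∀ k, An (f k) C) : An (fun a => ∑ k ∈ s, f k a) (s.card * C) := by
  classical
  induction s using Finset.induction_on with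
  | empty => simpa using An.const (ι := ι) 0 0 (by simp)
  | insert k s hk ih =>
    simp only [sum_insert hk, card_insert_of_notMem hk]
    have := (hf k).add ih
    convert this using 1
    push_cast; ring

lemma An.prod {κ : Type} (s : Finset κ) {f : κ → (ι → ZMod 2) → ℝ} {C : ℝ}
    (hf : ∀ k, An (f k) C) : An (fun a => ∏ k ∈ s, f k a) (C ^ s.card) := by
  classical
  induction s using Finset.induction_on with
  | empty => simpa using An.const (ι := ι) 1 1 (by simp)
  | insert k s hk ih =>
    simp only [prod_insert hk, card_insert_of_notMem hk]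
    have := (hf k).mul ih
    convert this using 1
    ring

lemma An.posdef (u : (ι → ZMod 2) → ℝ) (hu : ∀ j, 0 ≤ ∑ a, chi j a * u a) : An u (u 0) := by
  intro ψ ε h
  set g : ℝ := (Fintype.card (ι → ZMod 2) : ℝ) with hg
  have hg0 : 0 < g := by rw [hg]; exact_mod_cast Fintype.card_pos
  set W := fun j => ∑ a, chi j a * u a with hW
  have h1 : g * ∑ a, ψ a * u a = ∑ j, W j * ∑ a, ψ a * chi j a := by
    simp only [mul_sum]
    rw [sum_comm]
    apply sum_congr rfl
    intro a _
    have := inversion u a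
    calc g * (ψ a * u a) = ψ a * (g * u a) := by ring
      _ = ψ a * ∑ j, W j * chi j a := by rw [← this]
      _ = _ := by rw [mul_sum]; apply sum_congr rfl; intro j _; ring
  have h2 : ∑ j, W j = g * u 0 := by
    have := inversion u 0
    simpa only [chi_zero_right, mul_one] using this
  have h3 : g * |∑ a, ψ a * u a| ≤ g * (u 0 * ε) := by
    rw [← abs_of_pos hg0, ← abs_mul, h1, abs_of_pos hg0, ← mul_assoc, ← h2, sum_mul]
    refine (abs_sum_le_sum_abs _ _).trans (sum_le_sum fun j _ => ?_)
    rw [abs_mul, abs_of_nonneg (hu j)]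
    exact mul_le_mul_of_nonneg_left (h j) (hu j)
  exact le_of_mul_le_mul_left h3 hg0

end chars

section pseudo
variable {P : Type} [Fintype P] [DecidableEq P] {m : ℕ}

abbrev GG (P : Type) (m : ℕ) := Option P × Fin m → ZMod 2

def xs (a : GG P m) : Fin m → ZMod 2 := fun k => a (none, k)

def emb (o : Option P) (z : Fin m → ZMod 2) : GG P m := fun c => if c.1 = o then z c.2 else 0

def beta (a : GG P m) (l : P) : ZMod 2 := xs a ⬝ᵥ fun k => a (some l, k)

lemma dot_emb (j : GG P m) (o : Option P) (z : Fin m → ZMod 2) :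
    j ⬝ᵥ emb o z = (fun k => j (o, k)) ⬝ᵥ z := by
  simp only [dotProduct, emb, Fintype.sum_prod_type, mul_ite, mul_zero]
  rw [sum_comm]
  simp

omit [Fintype P] in
lemma beta_emb (a : GG P m) (l0 l : P) (z : Fin m → ZMod 2) :
    beta (a + emb (some l0) z) l = beta a l + if l = l0 then xs a ⬝ᵥ z else 0 := by
  have h1 : xs (a + emb (some l0) z) = xs a := by funext k; simp [xs, emb]
  unfold beta
  rw [h1]
  by_cases h : l = l0
  · simp [h, emb, dotProduct, mul_add, sum_add_distrib]
  · simp [h, emb]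

lemma count_xs (γ : Fin m → ZMod 2) :
    (2 : ℝ) ^ m * ∑ a : GG P m, (if xs a + γ = 0 then (1 : ℝ) else 0)
      = Fintype.card (GG P m) := by
  have h1 : ∀ a : GG P m, (2 : ℝ) ^ m * (if xs a + γ = 0 then (1 : ℝ) else 0)
      = ∑ z, chi γ z * chi (emb none z) a := by
    intro a
    have : ∀ z, chi γ z * chi (emb none z) a = chi (xs a + γ) z := by
      intro z
      rw [chi_add_left, mul_comm, chi_comm (emb none z)]
      simp only [chi, chiZ, dot_emb]
      rfl
    simp only [this, sum_chi]
    split_ifs <;> simp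
  rw [mul_sum]
  simp only [h1]
  rw [sum_comm]
  simp only [← mul_sum, sum_chi]
  rw [sum_eq_single 0]
  · have : (emb none (0 : Fin m → ZMod 2) : GG P m) = 0 := by funext c; simp [emb]
    simp [this, chi_zero_right]
  · intro z _ hz
    have : (emb none z : GG P m) ≠ 0 := by
      intro h
      apply hz
      funext k
      simpa [emb] using congrFun h (none, k)
    simp [this]
  · simp

lemma term_bound (t : P → ZMod 2) (j : GG P m) (L : Finset P) (hL : L.Nonempty) :
    |∑ a : GG P m, (∏ l ∈ L, (eZ (beta a l + t l) : ℝ)) * chi j a|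
      ≤ Fintype.card (GG P m) / 2 ^ m := by
  obtain ⟨l0, hl0⟩ := hL
  set Φ := fun a : GG P m => (∏ l ∈ L, (eZ (beta a l + t l) : ℝ)) * chi j a with hΦ
  set γ : Fin m → ZMod 2 := fun k => j (some l0, k) with hγ
  have hshift : ∀ a z, Φ (a + emb (some l0) z) = Φ a * chi (xs a + γ) z := by
    intro a z
    simp only [hΦ, chi_add_right, chi_add_left, beta_emb]
    have e1 : ∀ l, (eZ (beta a l + (if l = l0 then xs a ⬝ᵥ z else 0) + t l) : ℝ) =
        eZ (beta a l + t l) * (if l = l0 then chi (xs a) z else 1) := by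
      intro l
      rw [add_right_comm, eZ_add]
      split_ifs <;> simp [chi, chiZ, eZ_zero]
    have e2 : chi j (emb (some l0) z) = chi γ z := by simp only [chi, chiZ, dot_emb, hγ]
    simp only [e1, prod_mul_distrib, prod_ite_eq', hl0, if_true, e2]
    ring
  have habs : ∀ a, |Φ a| = 1 := by
    intro a
    simp only [hΦ, abs_mul, abs_prod]
    have e1 : ∀ x, |(eZ x : ℝ)| = 1 := by
      intro x; rcases eZ_pm x with h | h <;> simp [h]
    have e2 : |chi j a| = 1 := e1 _
    simp [e1, e2]
  have h1 : (2 : ℝ) ^ m * ∑ a, Φ a = 2 ^ m * ∑ a, Φ a * (if xs a + γ = 0 then 1 else 0) := by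
    have : ∑ z : Fin m → ZMod 2, ∑ a, Φ (a + emb (some l0) z) = 2 ^ m * ∑ a, Φ a := by
      have : ∀ z : Fin m → ZMod 2, ∑ a, Φ (a + emb (some l0) z) = ∑ a, Φ a := fun z =>
        Equiv.sum_comp (Equiv.addRight (emb (some l0) z)) Φ
      simp [this]
    rw [← this, sum_comm, mul_sum]
    apply sum_congr rfl
    intro a _
    simp only [hshift, ← mul_sum, sum_chi]
    split_ifs <;> simp [mul_comm]
  have h2 : (0 : ℝ) < 2 ^ m := by positivity
  rw [mul_left_cancel₀ h2.ne' h1, le_div_iff₀ h2, ← count_xs γ, mul_comm]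
  refine mul_le_mul_of_nonneg_left ((abs_sum_le_sum_abs _ _).trans (sum_le_sum fun a _ => ?_)) h2.le
  rw [abs_mul, habs]
  split_ifs <;> simp

lemma vanish (F : GG P m → ℝ) (C : ℝ) (hF : An F C) (t : P → ZMod 2)
    (h0 : ∀ a, beta a = t → F a = 0) :
    |∑ a, F a| ≤ C * (2 ^ Fintype.card P * (Fintype.card (GG P m) / 2 ^ m)) := by
  set ψ := fun a : GG P m => ∏ l, (1 + (eZ (beta a l + t l) : ℝ)) with hψ
  have h1 : ∀ a, ψ a * F a = 0 := by
    intro a
    by_cases h : beta a = t
    · simp [h0 a h]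
    · obtain ⟨l, hl⟩ := Function.ne_iff.1 h
      have : ∀ x y : ZMod 2, x ≠ y → eZ (x + y) = -1 := by decide
      have h2 : ψ a = 0 := prod_eq_zero (mem_univ l) (by simp [this _ _ hl])
      simp [h2]
  have h2 := hF (fun a => ψ a - 1) (2 ^ Fintype.card P * (Fintype.card (GG P m) / 2 ^ m)) (by
    intro j
    have e : ∀ a, ψ a - 1 = ∑ L ∈ (univ : Finset P).powerset.erase ∅,
        ∏ l ∈ L, (eZ (beta a l + t l) : ℝ) := by
      intro a
      simp only [hψ]
      rw [prod_one_add, ← add_sum_erase _ _ (empty_mem_powerset _)]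
      simp
    simp only [e, sum_mul]
    rw [sum_comm]
    refine (abs_sum_le_sum_abs _ _).trans ?_
    refine (sum_le_card_nsmul _ _ (Fintype.card (GG P m) / 2 ^ m : ℝ) fun L hL =>
      term_bound t j L (nonempty_iff_ne_empty.2 (ne_of_mem_erase hL))).trans ?_
    rw [nsmul_eq_mul]
    refine mul_le_mul_of_nonneg_right ?_ (by positivity)
    have : ((univ : Finset P).powerset.erase ∅).card ≤ 2 ^ Fintype.card P := by
      refine card_erase_le.trans ?_
      simp
    exact_mod_cast this)
  simpa only [sub_mul, h1, one_mul, zero_sub, sum_neg_distrib, abs_neg] using h2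

end pseudo

end Pool.Agent.H.MP_6132b6_co
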