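import Mathlib
import Pool.Agent.H.MP_6132b6_co.Four

set_option autoImplicit false

namespace Pool.Agent.H.MP_6132b6_co

open Finset

lemma eq_of_abs_sum {K : Type} [Fintype K] (z y : K → ℤ) (hz : ∀ k, z k = 1 ∨ z k = -1)
    (hy : ∀ k, y k = 1 ∨ y k = -1) (σ : ℤ) (hσ : σ = 1 ∨ σ = -1)
    (h : ∑ k, z k * y k = σ * Fintype.card K) (k : K) : y k = σ * z k := by
  have h1 : ∑ k, (1 - σ * (z k * y k)) = 0 := by
    rw [sum_sub_distrib, ← mul_sum, h]
    rcases hσ with rfl | rfl <;> simp
  have h2 : ∀ k ∈ (univ : Finset K), 0 ≤ 1 - σ * (z k * y k) := by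
    intro k _
    rcases hσ with rfl | rfl <;> rcases hz k with h | h <;> rcases hy k with h' | h' <;>
      simp [h, h']
  have h3 := (sum_eq_zero_iff_of_nonneg h2).1 h1 k (mem_univ k)
  revert h3
  rcases hσ with rfl | rfl <;> rcases hz k with h | h <;> rcases hy k with h' | h' <;>
    simp [h, h']

section posdef
variable {ι : Type} [Fintype ι] [DecidableEq ι]

/-- the set where a positive definite function attains its maximal modulus is a subgroup -/
lemma posdef_subgroup (u : (ι → ZMod 2) → ℝ) (hu : ∀ j, 0 ≤ ∑ a, chi j a * u a) (h0 : 0 < u 0) :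
    ∃ (H : AddSubgroup (ι → ZMod 2)) (j0 : ι → ZMod 2),
      (∀ x, |u x| = u 0 → x ∈ H) ∧ ∀ x ∈ H, u x = chi j0 x * u 0 := by
  set g : ℝ := (Fintype.card (ι → ZMod 2) : ℝ) with hg
  have hg0 : 0 < g := by rw [hg]; exact_mod_cast Fintype.card_pos
  set W := fun j => ∑ a, chi j a * u a with hW
  have hinv : ∀ x, ∑ j, W j * chi j x = g * u x := inversion u
  have h2 : ∑ j, W j = g * u 0 := by simpa only [chi_zero_right, mul_one] using hinv 0
  obtain ⟨j0, hj0⟩ : ∃ j0, W j0 ≠ 0 := by
    by_contra hc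
    push Not at hc
    simp only [hc, sum_const_zero] at h2
    nlinarith
  refine ⟨{ carrier := {x | ∀ j, W j ≠ 0 → chi j x = chi j0 x}
            add_mem' := ?_, zero_mem' := ?_, neg_mem' := ?_ }, j0, ?_, ?_⟩
  · intro x y hx hy j hj
    rw [chi_add_right, chi_add_right, hx j hj, hy j hj]
  · intro j _
    simp [chi_zero_right]
  · intro x hx
    have : -x = x := neg_eq_of_add_eq_zero_left (add_self_eq x)
    rw [this]; exact hx
  · intro x hx
    obtain ⟨σ, hσ, hux⟩ : ∃ σ : ℝ, (σ = 1 ∨ σ = -1) ∧ u x = σ * u 0 := by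
      rcases (abs_eq h0.le).1 hx with h | h
      · exact ⟨1, Or.inl rfl, by linarith⟩
      · exact ⟨-1, Or.inr rfl, by linarith⟩
    have h3 : ∑ j, W j * (1 - σ * chi j x) = 0 := by
      have : ∀ j, W j * (1 - σ * chi j x) = W j - σ * (W j * chi j x) := by intro j; ring
      simp only [this, sum_sub_distrib, ← mul_sum, hinv, h2, hux]
      rcases hσ with rfl | rfl <;> ring
    have h4 : ∀ j ∈ (univ : Finset (ι → ZMod 2)), 0 ≤ W j * (1 - σ * chi j x) := by
      intro j _
      refine mul_nonneg (hu j) ?_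
      rcases hσ with rfl | rfl <;> rcases chi_pm j x with h | h <;> simp [h]
    have h5 : ∀ j, W j ≠ 0 → chi j x = σ := by
      intro j hj
      have := (mul_eq_zero.1 ((sum_eq_zero_iff_of_nonneg h4).1 h3 j (mem_univ j))).resolve_left hj
      rcases hσ with rfl | rfl <;> linarith
    intro j hj
    rw [h5 j hj, h5 j0 hj0]
  · intro x hx
    have : ∑ j, W j * chi j x = ∑ j, W j * chi j0 x := by
      apply sum_congr rfl
      intro j _
      by_cases hj : W j = 0
      · simp [hj]
      · rw [hx j hj]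
    rw [hinv, ← sum_mul, h2] at this
    apply mul_left_cancel₀ hg0.ne'
    linarith

end posdef

/-- subgroups with pairwise trivial intersection covering three quarters of a big group -/
lemma cover {G I : Type} [AddCommGroup G] [Fintype G] [Fintype I] (H : I → AddSubgroup G)
    (hdis : ∀ i j, i ≠ j → ∀ x, x ∈ H i → x ∈ H j → x = 0) (Bad : Finset G)
    (hBad : 4 * Bad.card ≤ Fintype.card G) (hcov : ∀ x, x ∉ Bad → ∃ i, x ∈ H i)
    (hbig : 8 * Fintype.card I ^ 2 < Fintype.card G) : ∃ i, H i = ⊤ := by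
  classical
  set g := Fintype.card G with hg
  set R := Fintype.card I with hR
  set h := fun i => Nat.card (H i) with hh
  have h1 : g ≤ Bad.card + ∑ i, h i := by
    have : (univ : Finset G) ⊆ Bad ∪ univ.biUnion fun i => univ.filter (· ∈ H i) := by
      intro x _
      by_cases hx : x ∈ Bad
      · simp [hx]
      · obtain ⟨i, hi⟩ := hcov x hx
        simp only [mem_union, mem_biUnion, mem_univ, mem_filter, true_and]
        exact Or.inr ⟨i, hi⟩
    refine (card_le_card this).trans ((card_union_le _ _).trans ?_)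
    refine Nat.add_le_add_left (card_biUnion_le.trans (sum_le_sum fun i _ => le_of_eq ?_)) _
    simp [hh, Fintype.card_subtype]
  have hg0 : 0 < g := Fintype.card_pos
  have hI : (univ : Finset I).Nonempty := by
    by_contra hc
    rw [not_nonempty_iff_eq_empty] at hc
    rw [hc, sum_empty] at h1
    omega
  obtain ⟨i0, -, hi0⟩ := exists_max_image univ h hI
  have h2 : ∑ i, h i ≤ R * h i0 := by
    have := sum_le_card_nsmul univ h (h i0) hi0
    simpa using this
  have h3 : ∀ i, i ≠ i0 → h i ≤ 2 * R := by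
    intro i hi
    have hinj : Function.Injective fun p : H i × H i0 => (p.1.1 + p.2.1 : G) := by
      rintro ⟨x, y⟩ ⟨x', y'⟩ he
      have he' : x.1 + y.1 = x'.1 + y'.1 := he
      have e : x.1 - x'.1 = y'.1 - y.1 := by
        rw [sub_eq_sub_iff_add_eq_add, he', add_comm]
      have z := hdis i i0 hi (x.1 - x'.1) (sub_mem x.2 x'.2) (e ▸ sub_mem y'.2 y.2)
      have ex : x = x' := Subtype.ext (sub_eq_zero.1 z)
      have ey : y = y' := Subtype.ext (sub_eq_zero.1 (e ▸ z)).symm
      rw [ex, ey]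
    have := Nat.card_le_card_of_injective _ hinj
    rw [Nat.card_prod, Nat.card_eq_fintype_card (α := G)] at this
    have h4 : h i * h i0 ≤ g := this
    have h5 : 3 * g ≤ 4 * (R * h i0) := by omega
    by_contra hc
    push Not at hc
    have : 2 * R * h i0 ≤ h i * h i0 := Nat.mul_le_mul_right _ hc.le
    nlinarith
  have h4 : ∑ i, h i ≤ h i0 + R * (2 * R) := by
    rw [← add_sum_erase _ _ (mem_univ i0)]
    refine Nat.add_le_add_left ?_ _
    refine (sum_le_card_nsmul _ _ (2 * R) fun i hi => h3 i (ne_of_mem_erase hi)).trans ?_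
    exact Nat.mul_le_mul_right _ (card_erase_le.trans (by simp [hR]))
  have h5 : g < 2 * h i0 := by nlinarith
  refine ⟨i0, AddSubgroup.eq_top_of_card_eq _ ?_⟩
  obtain ⟨q, hq⟩ := AddSubgroup.card_addSubgroup_dvd_card (H i0)
  have hq' : g = h i0 * q := by rw [hg, ← Nat.card_eq_fintype_card]; exact hq
  have : q = 1 := by
    rcases q with _ | _ | q
    · omega
    · rfl
    · nlinarith
  rw [hq, this, mul_one]

variable {I K P : Type} [Fintype I] [Fintype K] [Fintype P] [DecidableEq P] [DecidableEq K]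

open Classical in
noncomputable def tau [Nonempty P] {m : ℕ} (x : GG P m) : P :=
  if h : ∃ t, beta x = Pi.single t 1 then h.choose else Classical.arbitrary P

lemma tau_eq [Nonempty P] {m : ℕ} (x : GG P m) (t : P) (h : beta x = Pi.single t 1) :
    tau x = t := by
  have h' : ∃ t, beta x = Pi.single t 1 := ⟨t, h⟩
  rw [tau, dif_pos h']
  have := h'.choose_spec
  by_contra hc
  have h2 := congrFun (h.symm.trans this) t
  rw [Pi.single_eq_same, Pi.single_eq_of_ne (Ne.symm hc)] at h2
  exact absurd h2 (by decide)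

def sg (b : Bool) : ℤ := if b then 1 else -1

theorem core [Nonempty P] [Nonempty K] (Z : P → I → K → ℤ)
    (hpm : ∀ t i k, Z t i k = 1 ∨ Z t i k = -1)
    (horth : ∀ t i j, i ≠ j → ∑ k, Z t i k * Z t j k = 0)
    (hatt : ∀ c : I → ℤ, (∀ t, ∃ w : K → ℤ, (∀ k, w k = 1 ∨ w k = -1) ∧
      ∀ i, c i = ∑ k, Z t i k * w k) → ∃ i, |c i| = Fintype.card K) :
    ∃ m : ℕ, 1 ≤ m ∧ ∀ y : GG P m → K → ℤ, (∀ x k, y x k = 1 ∨ y x k = -1) →
      (∀ i j, 0 ≤ (Fintype.card K : ℤ) +
        ∑ x ∈ univ.erase 0, chiZ j x * ∑ k, Z (tau x) i k * y x k) →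
      ∃ i j, ∀ x, x ≠ 0 → ∀ k, y x k = chiZ j x * Z (tau x) i k := by
  classical
  set T := Fintype.card K with hT
  have hT0 : 0 < T := Fintype.card_pos
  set C : ℝ := ((univ : Finset I).card * (((T : ℝ) + T) * (T + T))) ^ (univ : Finset (K → Bool)).card
    with hC
  obtain ⟨m, hm⟩ := pow_unbounded_of_one_lt
    (4 * Fintype.card P * C * 2 ^ Fintype.card P + 8 * (Fintype.card I : ℝ) ^ 2 + 1)
    (one_lt_two (α := ℝ))
  have hC0 : 0 ≤ C := by positivity
  have hA : (0 : ℝ) ≤ 4 * Fintype.card P * C * 2 ^ Fintype.card P := by positivity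
  have hB : (0 : ℝ) ≤ 8 * (Fintype.card I : ℝ) ^ 2 := by positivity
  refine ⟨m, ?_, fun y hy hpos => ?_⟩
  · rcases m with _ | m
    · simp only [pow_zero] at hm; linarith
    · omega
  set uZ : I → GG P m → ℤ := fun i x => if x = 0 then T else ∑ k, Z (tau x) i k * y x k with huZ
  set u : I → GG P m → ℝ := fun i x => (uZ i x : ℝ) with hu
  have hu0 : ∀ i, u i 0 = T := by intro i; simp [hu, huZ]
  have hW : ∀ i j, 0 ≤ ∑ a, chi j a * u i a := by
    intro i j
    have h1 := hpos i j
    have h2 : ∑ a, chi j a * u i a = (((T : ℤ) +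
        ∑ x ∈ univ.erase 0, chiZ j x * ∑ k, Z (tau x) i k * y x k : ℤ) : ℝ) := by
      rw [← add_sum_erase _ _ (mem_univ 0), chi_zero_right, hu0, one_mul]
      push_cast
      congr 1
      apply sum_congr rfl
      intro x hx
      simp [hu, huZ, chi, ne_of_mem_erase hx]
    rw [h2]
    exact_mod_cast h1
  have hAn : ∀ i, An (u i) T := fun i => hu0 i ▸ An.posdef (u i) (hW i)
  set FZ : P → GG P m → ℤ := fun t x =>
    ∏ w : K → Bool, ∑ i, (uZ i x - ∑ k, Z t i k * sg (w k)) * (uZ i x - ∑ k, Z t i k * sg (w k))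
    with hFZ
  have hsg : ∀ b, sg b = 1 ∨ sg b = -1 := by decide
  have hF : ∀ t, An (fun x => (FZ t x : ℝ)) C := by
    intro t
    have h1 : ∀ (w : K → Bool) i,
        An (fun x => u i x + -((∑ k, Z t i k * sg (w k) : ℤ) : ℝ)) ((T : ℝ) + T) := by
      intro w i
      refine (hAn i).add (An.const _ _ ?_)
      rw [abs_neg, ← Int.cast_abs]
      have : |∑ k, Z t i k * sg (w k)| ≤ (T : ℤ) := by
        refine (abs_sum_le_sum_abs _ _).trans ?_
        have : ∀ k, |Z t i k * sg (w k)| = 1 := by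
          intro k
          rcases hpm t i k with h | h <;> rcases hsg (w k) with h' | h' <;> simp [h, h']
        simp [this, hT]
      exact_mod_cast this
    have h2 := An.prod univ fun w : K → Bool => An.sum univ fun i => (h1 w i).mul (h1 w i)
    convert h2 using 2
    simp [hFZ, hu, sub_eq_add_neg]
  have hF0 : ∀ t x, beta x = Pi.single t 1 → (FZ t x : ℝ) = 0 := by
    intro t x hx
    have hx0 : x ≠ 0 := by
      rintro rfl
      have := congrFun hx t
      simp [beta] at this
    have : FZ t x = 0 := by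
      refine prod_eq_zero (mem_univ fun k => decide (y x k = 1)) (sum_eq_zero fun i _ => ?_)
      have e : ∀ k, sg (decide (y x k = 1)) = y x k := by
        intro k; rcases hy x k with h | h <;> simp [sg, h]
      simp [huZ, hx0, tau_eq x t hx, e]
    simp [this]
  have hFnn : ∀ t x, 0 ≤ FZ t x := fun t x =>
    prod_nonneg fun w _ => sum_nonneg fun i _ => mul_self_nonneg _
  set Bad : Finset (GG P m) := univ.filter fun x => ∀ i, |uZ i x| ≠ T with hBad
  have hB1 : ∀ x ∈ Bad, 1 ≤ ∑ t, FZ t x := by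
    intro x hx
    have hx' := (mem_filter.1 hx).2
    obtain ⟨t, ht⟩ : ∃ t, ∀ w : K → ℤ, (∀ k, w k = 1 ∨ w k = -1) →
        ∃ i, uZ i x ≠ ∑ k, Z t i k * w k := by
      by_contra hc
      push Not at hc
      obtain ⟨i, hi⟩ := hatt (fun i => uZ i x) hc
      exact hx' i hi
    refine le_trans ?_ (single_le_sum (fun t _ => hFnn t x) (mem_univ t))
    have : 0 < FZ t x := by
      refine prod_pos fun w _ => ?_
      obtain ⟨i, hi⟩ := ht (fun k => sg (w k)) fun k => hsg _
      exact sum_pos' (fun i _ => mul_self_nonneg _)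
        ⟨i, mem_univ i, mul_self_pos.2 (sub_ne_zero.2 hi)⟩
    omega
  set g : ℝ := (Fintype.card (GG P m) : ℝ) with hg
  have h2m : (0 : ℝ) < 2 ^ m := by positivity
  have hg0 : 0 < g := by rw [hg]; exact_mod_cast Fintype.card_pos
  have hB2 : 4 * Bad.card ≤ Fintype.card (GG P m) := by
    have h1 : (Bad.card : ℝ) ≤ ∑ t, ∑ x, (FZ t x : ℝ) := by
      rw [sum_comm]
      calc (Bad.card : ℝ) = ∑ x ∈ Bad, (1 : ℝ) := by simp
        _ ≤ ∑ x ∈ Bad, ∑ t, (FZ t x : ℝ) := sum_le_sum fun x hx => by exact_mod_cast hB1 x hx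
        _ ≤ _ := sum_le_sum_of_subset_of_nonneg (subset_univ _) fun x _ _ =>
          sum_nonneg fun t _ => by exact_mod_cast hFnn t x
    have h2 : ∑ t, ∑ x, (FZ t x : ℝ) ≤
        Fintype.card P * (C * (2 ^ Fintype.card P * (g / 2 ^ m))) := by
      have := sum_le_card_nsmul univ (fun t => ∑ x, (FZ t x : ℝ)) _ fun t _ =>
        (le_abs_self _).trans (vanish _ C (hF t) (Pi.single t 1) (hF0 t))
      rwa [card_univ, nsmul_eq_mul] at this
    have h3 : 4 * (Fintype.card P * (C * (2 ^ Fintype.card P * (g / 2 ^ m)))) ≤ g := by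
      have : 4 * (Fintype.card P * (C * (2 ^ Fintype.card P * (g / 2 ^ m)))) =
          (4 * Fintype.card P * C * 2 ^ Fintype.card P) / 2 ^ m * g := by ring
      rw [this]
      refine mul_le_of_le_one_left hg0.le ?_
      rw [div_le_one h2m]
      linarith
    have : (4 * Bad.card : ℝ) ≤ g := by linarith
    rw [hg] at this
    exact_mod_cast this
  have hbig : 8 * Fintype.card I ^ 2 < Fintype.card (GG P m) := by
    have h1 : 2 ^ m ≤ Fintype.card (GG P m) := by
      simp only [Fintype.card_fun, ZMod.card, Fintype.card_prod, Fintype.card_option,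
        Fintype.card_fin]
      exact Nat.pow_le_pow_right (by norm_num) (by nlinarith)
    have h2 : (8 * Fintype.card I ^ 2 : ℝ) < 2 ^ m := by linarith
    have h3 : 8 * Fintype.card I ^ 2 < 2 ^ m := by exact_mod_cast h2
    omega
  choose H j0 hH1 hH2 using fun i => posdef_subgroup (u i) (hW i)
    (by rw [hu0]; exact_mod_cast hT0)
  have hval : ∀ i x, x ≠ 0 → x ∈ H i → ∀ k, y x k = chiZ (j0 i) x * Z (tau x) i k := by
    intro i x hx0 hx
    refine eq_of_abs_sum _ _ (hpm _ _) (hy x) _ (eZ_pm _) ?_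
    have := hH2 i x hx
    rw [hu0] at this
    simp only [hu, huZ, hx0, if_false, chi] at this
    exact_mod_cast this
  obtain ⟨i, hi⟩ := cover H (by
    intro i j hij x hxi hxj
    by_contra hx0
    have h1 := hH2 j x hxj
    rw [hu0] at h1
    simp only [hu, huZ, hx0, if_false, hval i x hx0 hxi] at h1
    have e : ∀ k, Z (tau x) j k * (chiZ (j0 i) x * Z (tau x) i k) =
        chiZ (j0 i) x * (Z (tau x) i k * Z (tau x) j k) := by intro k; ring
    simp only [e, ← mul_sum, horth _ _ _ hij, mul_zero, Int.cast_zero] at h1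
    have hT' : (0 : ℝ) < T := by exact_mod_cast hT0
    rcases chi_pm (j0 j) x with h | h <;> rw [h] at h1 <;> linarith) Bad hB2 (by
    intro x hx
    simp only [hBad, mem_filter, mem_univ, true_and, not_forall, not_not] at hx
    obtain ⟨i, hi⟩ := hx
    refine ⟨i, hH1 i x ?_⟩
    rw [hu0]
    simp only [hu]
    exact_mod_cast hi) hbig
  exact ⟨i, j0 i, fun x hx => hval i x hx (hi ▸ AddSubgroup.mem_top x)⟩

end Pool.Agent.H.MP_6132b6_co
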