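import Mathlib
import Pool.Agent.H.MP_6132b6_co.Core

set_option autoImplicit false

namespace Pool.Agent.H.MP_6132b6_co

open Finset

lemma two_dist {α : Type} [Fintype α] (x y : α → Bool) :
    2 * (hammingDist x y : ℤ) = ∑ c, (1 - sg (x c) * sg (y c)) := by
  unfold hammingDist
  rw [card_filter]
  push_cast
  rw [mul_sum]
  apply sum_congr rfl
  intro c _
  cases x c <;> cases y c <;> simp [sg]

lemma sum_chiZ {ι : Type} [Fintype ι] [DecidableEq ι] (j : ι → ZMod 2) :
    ∑ x ∈ univ.erase 0, chiZ j x = (if j = 0 then (Fintype.card (ι → ZMod 2) : ℤ) else 0) - 1 := by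
  have h := sum_chi j
  rw [← add_sum_erase _ _ (mem_univ 0), chi_zero_right] at h
  have : ((∑ x ∈ univ.erase 0, chiZ j x : ℤ) : ℝ) =
      (((if j = 0 then (Fintype.card (ι → ZMod 2) : ℤ) else 0) - 1 : ℤ) : ℝ) := by
    push_cast
    simp only [chi] at h
    split_ifs at h ⊢ <;> linarith
  exact_mod_cast this

lemma chiZ_add {ι : Type} [Fintype ι] (j k x : ι → ZMod 2) :
    chiZ (j + k) x = chiZ j x * chiZ k x := by simp [chiZ, add_dotProduct, eZ_add]

variable {I K P : Type} [Fintype I] [Fintype K] [Fintype P] [DecidableEq P] [DecidableEq K]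

theorem facet [Nonempty I] [Nonempty P] [Nonempty K] (Z : P → I → K → ℤ)
    (hpm : ∀ t i k, Z t i k = 1 ∨ Z t i k = -1)
    (horth : ∀ t i j, i ≠ j → ∑ k, Z t i k * Z t j k = 0)
    (hatt : ∀ c : I → ℤ, (∀ t, ∃ w : K → ℤ, (∀ k, w k = 1 ∨ w k = -1) ∧
      ∀ i, c i = ∑ k, Z t i k * w k) → ∃ i, |c i| = Fintype.card K) :
    ∃ g r N : ℕ, 0 < g ∧ 2 * r = g * Fintype.card K ∧ ∀ n, N ≤ n →
      ∃ S : Finset (Fin n → Bool), S.Nonempty ∧ (∀ x ∈ S, ∀ y ∈ S, hammingDist x y ≤ r) ∧
        (∀ S' : Finset (Fin n → Bool), S ⊆ S' → (∀ x ∈ S', ∀ y ∈ S', hammingDist x y ≤ r) →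
          S' = S) ∧ S.card ≤ Fintype.card I * g := by
  classical
  obtain ⟨m, hm, hcore⟩ := core Z hpm horth hatt
  set T := Fintype.card K with hT
  have hT0 : 0 < T := Fintype.card_pos
  set g := Fintype.card (GG P m) with hg
  obtain ⟨q, hq⟩ : 2 ∣ g := by
    simp only [hg, Fintype.card_fun, ZMod.card, Fintype.card_prod, Fintype.card_option,
      Fintype.card_fin]
    exact dvd_pow_self 2 (by positivity)
  let Ω := {x : GG P m // x ≠ 0} × K
  refine ⟨g, q * T, Fintype.card Ω, Fintype.card_pos, by rw [hq]; ring, fun n hn => ?_⟩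
  let E : Ω ⊕ Fin (n - Fintype.card Ω) ≃ Fin n := Fintype.equivOfCardEq (by simp; omega)
  let pt : I × GG P m → Fin n → Bool := fun p c =>
    Sum.elim (fun ω : Ω => decide (chiZ p.2 ω.1.1 * Z (tau ω.1.1) p.1 ω.2 = 1)) (fun _ => true)
      (E.symm c)
  have hval : ∀ (p : I × GG P m) (x : GG P m) k, chiZ p.2 x * Z (tau x) p.1 k = 1 ∨
      chiZ p.2 x * Z (tau x) p.1 k = -1 := by
    intro p x k
    rcases eZ_pm (p.2 ⬝ᵥ x) with h | h <;> rcases hpm (tau x) p.1 k with h' | h' <;>
      simp [chiZ, h, h']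
  have hl : ∀ p (ω : Ω), sg (pt p (E (Sum.inl ω))) = chiZ p.2 ω.1.1 * Z (tau ω.1.1) p.1 ω.2 := by
    intro p ω
    simp only [pt, Equiv.symm_apply_apply, Sum.elim_inl]
    rcases hval p ω.1.1 ω.2 with h | h <;> simp [sg, h]
  have hr : ∀ p d, pt p (E (Sum.inr d)) = true := by intro p d; simp [pt]
  let Y : (Fin n → Bool) → GG P m → K → ℤ := fun y x k =>
    if h : x = 0 then 1 else sg (y (E (Sum.inl (⟨x, h⟩, k))))
  let F : (Fin n → Bool) → ℤ := fun y => ∑ d, (1 - sg (y (E (Sum.inr d))))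
  have hsub : ∀ f : GG P m → ℤ, ∑ x : {x : GG P m // x ≠ 0}, f x.1 = ∑ x ∈ univ.erase 0, f x :=
    fun f => (sum_subtype (univ.erase 0) (by simp) f).symm
  have hdist : ∀ y p, hammingDist y (pt p) ≤ q * T ↔
      F y ≤ T + ∑ x ∈ univ.erase 0, chiZ p.2 x * ∑ k, Z (tau x) p.1 k * Y y x k := by
    intro y p
    have h1 := two_dist y (pt p)
    rw [← Equiv.sum_comp E, Fintype.sum_sum_type] at h1
    simp only [hl, hr] at h1
    have h2 : ∑ ω : Ω, (1 - sg (y (E (Sum.inl ω))) * (chiZ p.2 ω.1.1 * Z (tau ω.1.1) p.1 ω.2)) =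
        (g - 1) * T - ∑ x ∈ univ.erase 0, chiZ p.2 x * ∑ k, Z (tau x) p.1 k * Y y x k := by
      rw [← hsub, Fintype.sum_prod_type]
      have : ∀ x : {x : GG P m // x ≠ 0},
          ∑ k, (1 - sg (y (E (Sum.inl (x, k)))) * (chiZ p.2 x.1 * Z (tau x.1) p.1 k)) =
          T - chiZ p.2 x.1 * ∑ k, Z (tau x.1) p.1 k * Y y x.1 k := by
        intro x
        rw [sum_sub_distrib, mul_sum]
        congr 1
        · simp [hT]
        · apply sum_congr rfl
          intro k _
          simp only [Y, dif_neg x.2]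
          ring
      simp only [this]
      rw [sum_sub_distrib, hsub fun _ => (T : ℤ)]
      congr 1
      rw [sum_const, card_erase_of_mem (mem_univ _), card_univ, nsmul_eq_mul,
        Nat.cast_sub Fintype.card_pos]
      simp [hg]
    have h3 : ∑ d, (1 - sg (y (E (Sum.inr d))) * sg true) = F y := by simp [F, sg]
    rw [h2, h3] at h1
    have hq' : (g : ℤ) = 2 * q := by exact_mod_cast hq
    rw [hq'] at h1
    constructor
    · intro h
      have : (hammingDist y (pt p) : ℤ) ≤ q * T := by exact_mod_cast h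
      linarith
    · intro h
      have : (hammingDist y (pt p) : ℤ) ≤ q * T := by linarith
      exact_mod_cast this
  have hsg : ∀ b, sg b = 1 ∨ sg b = -1 := by decide
  have hFnn : ∀ (y : Fin n → Bool) d, 0 ≤ 1 - sg (y (E (Sum.inr d))) := by
    intro y d
    rcases hsg (y (E (Sum.inr d))) with h | h <;> simp [h]
  have hcalc : ∀ (W : GG P m → K → ℤ) (i i' : I) (j j' : GG P m),
      (∀ x, x ≠ 0 → ∀ k, W x k = chiZ j x * Z (tau x) i k) →
      ∑ x ∈ univ.erase 0, chiZ j' x * ∑ k, Z (tau x) i' k * W x k =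
        if i' = i then T * ((if j' + j = 0 then (g : ℤ) else 0) - 1) else 0 := by
    intro W i i' j j' hW
    have : ∀ x ∈ (univ : Finset (GG P m)).erase 0, chiZ j' x * ∑ k, Z (tau x) i' k * W x k =
        if i' = i then T * chiZ (j' + j) x else 0 := by
      intro x hx
      have e : ∀ k, Z (tau x) i' k * W x k = chiZ j x * (Z (tau x) i' k * Z (tau x) i k) := by
        intro k; rw [hW x (ne_of_mem_erase hx)]; ring
      simp only [e, ← mul_sum]
      split_ifs with h
      · have e2 : ∀ k, Z (tau x) i' k * Z (tau x) i k = 1 := by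
          intro k; rw [h]; rcases hpm (tau x) i k with h | h <;> simp [h]
        simp only [e2, sum_const, card_univ, nsmul_eq_mul, mul_one, chiZ_add, ← hT]
        ring
      · rw [horth _ _ _ h]; simp
    rw [sum_congr rfl this]
    split_ifs with h1 h2
    · rw [← mul_sum, sum_chiZ, if_pos h2]
    · rw [← mul_sum, sum_chiZ, if_neg h2]
    · simp
  refine ⟨univ.image pt, univ_nonempty.image _, ?_, ?_, ?_⟩
  · intro x hx y hy
    obtain ⟨p, -, rfl⟩ := mem_image.1 hx
    obtain ⟨p', -, rfl⟩ := mem_image.1 hy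
    rw [hdist, hcalc _ p.1 p'.1 p.2 p'.2 (fun x hx k => by simp only [Y, dif_neg hx, hl])]
    have : F (pt p) = 0 := by simp [F, hr, sg]
    rw [this]
    split_ifs
    · nlinarith [Int.natCast_nonneg T, Int.natCast_nonneg g]
    · simp
    · simp
  · intro S' hS hd
    refine Subset.antisymm (fun y hy => ?_) hS
    have h1 : ∀ p, hammingDist y (pt p) ≤ q * T := fun p =>
      hd y hy _ (hS (mem_image_of_mem _ (mem_univ p)))
    have hF0 : 0 ≤ F y := sum_nonneg fun d _ => hFnn y d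
    obtain ⟨i, j, hij⟩ := hcore (Y y) (by
      intro x k
      simp only [Y]
      split_ifs
      · exact Or.inl rfl
      · exact hsg _) (fun i j => hF0.trans ((hdist y (i, j)).1 (h1 _)))
    obtain ⟨z, hz⟩ : ∃ z : GG P m, z ≠ 0 :=
      ⟨fun _ => 1, fun h => absurd (congrFun h (none, ⟨0, hm⟩)) (by simp)⟩
    have h2 := (hdist y (i, z + j)).1 (h1 _)
    rw [hcalc _ i i j (z + j) hij, if_pos rfl, add_assoc, add_self_eq, add_zero, if_neg hz] at h2
    have hF1 : F y = 0 := by linarith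
    refine mem_image.2 ⟨(i, j), mem_univ _, ?_⟩
    funext c
    obtain ⟨c, rfl⟩ := E.surjective c
    have sg_inj : ∀ a b, sg a = sg b → a = b := by decide
    rcases c with ⟨x, k⟩ | d
    · apply sg_inj
      rw [hl, ← hij x.1 x.2 k]
      simp only [Y, dif_neg x.2]
    · rw [hr]
      have := (sum_eq_zero_iff_of_nonneg fun d _ => hFnn y d).1 hF1 d (mem_univ d)
      apply sg_inj
      simp only [sg, if_true] at this ⊢
      linarith
  · refine card_image_le.trans ?_
    simp [hg]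

end Pool.Agent.H.MP_6132b6_co
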