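import Mathlib

set_option autoImplicit false

namespace Pool.Agent.H.MP_6132b6_co

open Finset

def A0 : Fin 8 → Fin 24 → ℤ :=
  ![![1, 1, 1, 1, 1, 1, 1, 1, 1, 1, 1, 1, 1, 1, 1, 1, 1, 1, 1, 1, 1, 1, 1, 1],
    ![1, 1, 1, -1, -1, -1, 1, 1, 1, -1, -1, -1, 1, 1, 1, -1, -1, -1, 1, 1, 1, -1, -1, -1],
    ![1, 1, 1, 1, 1, 1, -1, -1, -1, -1, -1, -1, 1, 1, 1, 1, 1, 1, -1, -1, -1, -1, -1, -1],
    ![1, 1, 1, -1, -1, -1, -1, -1, -1, 1, 1, 1, 1, 1, 1, -1, -1, -1, -1, -1, -1, 1, 1, 1],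
    ![1, 1, 1, 1, 1, 1, 1, 1, 1, 1, 1, 1, -1, -1, -1, -1, -1, -1, -1, -1, -1, -1, -1, -1],
    ![1, 1, 1, -1, -1, -1, 1, 1, 1, -1, -1, -1, -1, -1, -1, 1, 1, 1, -1, -1, -1, 1, 1, 1],
    ![1, 1, 1, 1, 1, 1, -1, -1, -1, -1, -1, -1, -1, -1, -1, -1, -1, -1, 1, 1, 1, 1, 1, 1],
    ![1, 1, 1, -1, -1, -1, -1, -1, -1, 1, 1, 1, -1, -1, -1, 1, 1, 1, 1, 1, 1, -1, -1, -1]]

def B0 : Fin 8 → Fin 24 → ℤ :=
  ![![1, 1, -1, -1, -1, -1, -1, 1, 1, 1, 1, 1, 1, 1, -1, -1, -1, -1, -1, 1, 1, 1, 1, 1],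
    ![1, 1, -1, 1, 1, 1, -1, -1, 1, -1, 1, -1, 1, 1, -1, 1, 1, 1, -1, -1, 1, -1, 1, -1],
    ![1, 1, -1, -1, 1, 1, 1, -1, -1, 1, -1, 1, 1, 1, -1, -1, 1, 1, 1, -1, -1, 1, -1, 1],
    ![1, 1, 1, -1, -1, 1, 1, 1, -1, -1, 1, -1, 1, 1, 1, -1, -1, 1, 1, 1, -1, -1, 1, -1],
    ![1, 1, 1, 1, -1, -1, 1, -1, 1, -1, -1, 1, 1, 1, 1, 1, -1, -1, 1, -1, 1, -1, -1, 1],
    ![1, 1, 1, 1, 1, -1, -1, 1, -1, 1, -1, -1, 1, 1, 1, 1, 1, -1, -1, 1, -1, 1, -1, -1],
    ![1, 1, -1, -1, -1, -1, -1, 1, 1, 1, 1, 1, -1, -1, 1, 1, 1, 1, 1, -1, -1, -1, -1, -1],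
    ![1, 1, -1, 1, 1, 1, -1, -1, 1, -1, 1, -1, -1, -1, 1, -1, -1, -1, 1, 1, -1, 1, -1, 1]]

def M0 (b : Bool) : Fin 8 → Fin 24 → ℤ := if b then A0 else B0
def s0 (b : Bool) (i : Fin 8) : ℤ := if b then 1 else if i.1 < 6 then 1 else 0
def b0 (b : Bool) (k : Fin 24) : ℤ :=
  if b then (if k.1 < 3 then 1 else 0) else (if k.1 % 12 < 2 then 1 else 0)
def h0 (b : Bool) : ℤ := if b then 8 else 6

lemma M0_pm : ∀ b i k, M0 b i k = 1 ∨ M0 b i k = -1 := by decide +kernel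
lemma M0_orth : ∀ b i j, i ≠ j → ∑ k, M0 b i k * M0 b j k = 0 := by decide +kernel
lemma M0_div : ∀ b k, ∑ i, s0 b i * M0 b i k = h0 b * b0 b k := by decide +kernel
lemma s0_zero : ∀ b, s0 b 0 = 1 := by decide
lemma b0_sum : ∑ k, b0 true k = 3 := by decide +kernel

variable {a : ℕ}

abbrev II (a : ℕ) := Fin a → Fin 8
abbrev KK (a : ℕ) := Fin a → Fin 24

def Mp (b : Bool) (i : II a) (k : KK a) : ℤ := ∏ t, M0 b (i t) (k t)
def sp (b : Bool) (i : II a) : ℤ := ∏ t, s0 b (i t)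
def bp (b : Bool) (k : KK a) : ℤ := ∏ t, b0 b (k t)

lemma prod_pm {κ : Type} (s : Finset κ) (f : κ → ℤ) (h : ∀ t, f t = 1 ∨ f t = -1) :
    ∏ t ∈ s, f t = 1 ∨ ∏ t ∈ s, f t = -1 := by
  classical
  induction s using Finset.induction_on with
  | empty => simp
  | insert k s hk ih =>
    rw [prod_insert hk]
    rcases ih with ih | ih <;> rcases h k with h | h <;> simp [ih, h]

lemma Mp_pm (b : Bool) (i : II a) (k : KK a) : Mp b i k = 1 ∨ Mp b i k = -1 :=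
  prod_pm _ _ fun _ => M0_pm _ _ _

lemma Mp_orth (b : Bool) (i j : II a) (h : i ≠ j) : ∑ k, Mp b i k * Mp b j k = 0 := by
  obtain ⟨t, ht⟩ := Function.ne_iff.1 h
  simp only [Mp, ← prod_mul_distrib]
  rw [← Fintype.piFinset_univ, ← prod_univ_sum (fun _ => (univ : Finset (Fin 24)))
    (fun t k => M0 b (i t) k * M0 b (j t) k)]
  exact prod_eq_zero (mem_univ t) (M0_orth b _ _ ht)

lemma Mp_div (b : Bool) (k : KK a) : ∑ i, sp b i * Mp b i k = h0 b ^ a * bp b k := by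
  simp only [Mp, sp, ← prod_mul_distrib]
  rw [← Fintype.piFinset_univ, ← prod_univ_sum (fun _ => (univ : Finset (Fin 8)))
    (fun t i => s0 b i * M0 b i (k t))]
  simp only [M0_div, prod_mul_distrib, bp]
  simp

lemma sp_zero (b : Bool) : sp b (0 : II a) = 1 := by simp [sp, s0_zero]

lemma bp_sum : ∑ k : KK a, bp true k = 3 ^ a := by
  simp only [bp]
  rw [← Fintype.piFinset_univ, ← prod_univ_sum (fun _ => (univ : Finset (Fin 24)))
    (fun _ k => b0 true k)]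
  simp [b0_sum]

/-- the types: which matrix, whether row `i` is negated, and which row is moved to position 0 -/
abbrev PP (a : ℕ) := Bool × Bool × II a

def ZZ (t : PP a) (i : II a) (k : KK a) : ℤ :=
  (if t.2.1 = true ∧ i = t.2.2 then -1 else 1) * Mp t.1 (Equiv.swap t.2.2 0 i) k

lemma ZZ_pm (t : PP a) (i : II a) (k : KK a) : ZZ t i k = 1 ∨ ZZ t i k = -1 := by
  unfold ZZ
  rcases Mp_pm t.1 (Equiv.swap t.2.2 0 i) k with h | h <;> split_ifs <;> simp [h]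

lemma ZZ_orth (t : PP a) (i j : II a) (h : i ≠ j) : ∑ k, ZZ t i k * ZZ t j k = 0 := by
  have := Mp_orth t.1 (Equiv.swap t.2.2 0 i) (Equiv.swap t.2.2 0 j)
    (fun h' => h ((Equiv.swap _ _).injective h'))
  unfold ZZ
  have e : ∀ (x y p q : ℤ), x * p * (y * q) = x * y * (p * q) := by intros; ring
  simp only [e, ← mul_sum, this, mul_zero]

lemma weighted (b : Bool) (i0 : II a) (w : KK a → ℤ) :
    ∑ i, sp b (Equiv.swap i0 0 i) * ∑ k, Mp b (Equiv.swap i0 0 i) k * w k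
      = h0 b ^ a * ∑ k, bp b k * w k := by
  rw [Equiv.sum_comp (Equiv.swap i0 0) (fun i => sp b i * ∑ k, Mp b i k * w k)]
  simp only [mul_sum]
  rw [sum_comm]
  apply sum_congr rfl
  intro k _
  simp only [← mul_assoc, ← sum_mul, Mp_div]

lemma parity {κ : Type} (s : Finset κ) (β w : κ → ℤ) (hw : ∀ k, w k = 1 ∨ w k = -1) :
    (2 : ℤ) ∣ ∑ k ∈ s, β k * w k - ∑ k ∈ s, β k := by
  rw [← sum_sub_distrib]
  apply dvd_sum
  intro k _
  rcases hw k with h | h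
  · simp [h]
  · exact ⟨-β k, by rw [h]; ring⟩

lemma attain (c : II a → ℤ)
    (h : ∀ t : PP a, ∃ w : KK a → ℤ, (∀ k, w k = 1 ∨ w k = -1) ∧ ∀ i, c i = ∑ k, ZZ t i k * w k) :
    ∃ i, |c i| = Fintype.card (KK a) := by
  have key : ∀ b i0, ∃ x y : ℤ, ∑ i, sp b (Equiv.swap i0 0 i) * c i = h0 b ^ a * x ∧
      ∑ i, sp b (Equiv.swap i0 0 i) * c i - 2 * c i0 = h0 b ^ a * y ∧
      (2 : ℤ) ∣ x - ∑ k : KK a, bp b k ∧ (2 : ℤ) ∣ y - ∑ k : KK a, bp b k := by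
    intro b i0
    obtain ⟨w, hw, hc⟩ := h (b, false, i0)
    obtain ⟨w', hw', hc'⟩ := h (b, true, i0)
    refine ⟨_, _, ?_, ?_, parity _ _ w hw, parity _ _ w' hw'⟩
    · rw [← weighted b i0 w]
      simp [hc, ZZ]
    · rw [← weighted b i0 w']
      have e : ∀ i, ∑ k, Mp b (Equiv.swap i0 0 i) k * w' k =
          c i - if i = i0 then 2 * c i0 else 0 := by
        intro i
        by_cases hi : i = i0
        · subst hi
          have := hc' i
          simp only [ZZ, and_self, if_true, neg_mul, one_mul, sum_neg_distrib] at this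
          simp only [if_true]
          linarith
        · have := hc' i
          simp only [ZZ, hi, and_false, if_false, one_mul] at this
          simp [hi, this]
      simp only [e, mul_sub, sum_sub_distrib, mul_ite, mul_zero, sum_ite_eq', mem_univ, if_true,
        Equiv.swap_apply_left, sp_zero, one_mul]
  have hdiv : ∀ b i, h0 b ^ a ∣ c i := by
    intro b i
    obtain ⟨x, y, h1, h2, ⟨p, hp⟩, ⟨q, hq⟩⟩ := key b i
    refine ⟨p - q, ?_⟩
    have : 2 * c i = 2 * (h0 b ^ a * (p - q)) := by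
      have : x - y = 2 * (p - q) := by linarith
      calc 2 * c i = h0 b ^ a * (x - y) := by linarith
        _ = _ := by rw [this]; ring
    linarith
  have hne : ∃ i, c i ≠ 0 := by
    by_contra hc
    push Not at hc
    obtain ⟨x, y, h1, -, h3, -⟩ := key true 0
    simp only [hc, mul_zero, sum_const_zero] at h1
    have hx : x = 0 := by
      rcases mul_eq_zero.1 h1.symm with h | h
      · exact absurd (pow_eq_zero_iff'.1 h).1 (by decide)
      · exact h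
    rw [hx, bp_sum, zero_sub, dvd_neg] at h3
    have := Int.Prime.dvd_pow' (p := 2) Nat.prime_two h3
    norm_num at this
  obtain ⟨i, hi⟩ := hne
  refine ⟨i, le_antisymm ?_ ?_⟩
  · obtain ⟨w, hw, hc⟩ := h (true, false, i)
    rw [hc i]
    refine (abs_sum_le_sum_abs _ _).trans ?_
    have : ∀ k, |ZZ (true, false, i) i k * w k| = 1 := by
      intro k
      rcases ZZ_pm (true, false, i) i k with h | h <;> rcases hw k with h' | h' <;> simp [h, h']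
    simp [this]
  · have h8 : (8 : ℤ) ^ a ∣ c i := hdiv true i
    have h3 : (3 : ℤ) ^ a ∣ c i := (pow_dvd_pow_of_dvd (by decide : (3 : ℤ) ∣ h0 false) a).trans
      (hdiv false i)
    have hco : IsCoprime ((8 : ℤ) ^ a) (3 ^ a) :=
      IsCoprime.pow (by rw [Int.isCoprime_iff_gcd_eq_one]; decide)
    have h24 := hco.mul_dvd h8 h3
    rw [← mul_pow] at h24
    have := Int.le_of_dvd (abs_pos.2 hi) ((dvd_abs _ _).2 h24)
    simpa using this

end Pool.Agent.H.MP_6132b6_co
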